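import Pool.Agent.P8H62.RC.Hq

/-!
# Project RC, part CMPQ: chromatically equivalent graphs modulo `X ^ 4`
-/

set_option autoImplicit false
set_option linter.all false

namespace Pool.Agent.P8H62.RC

open Finset Polynomial
open Pool.Agent.P8H79.RC Pool.Agent.P8H59.RC

noncomputable def Tt (a b c : ℚ) : ℚ[X] := 1 + C a * X + C b * X ^ 2 + C c * X ^ 3

/-- the first coefficients -/
def Cg (f : ℚ[X]) (a b c : ℚ) : Prop := (X : ℚ[X]) ^ 4 ∣ f - Tt a b c

theorem Cg.mul {f g : ℚ[X]} {a b c a' b' c' : ℚ} (h : Cg f a b c) (h' : Cg g a' b' c') :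
    Cg (f * g) (a + a') (b + a * a' + b') (c + b * a' + a * b' + c') := by
  obtain ⟨r, hr⟩ := h
  obtain ⟨s, hs⟩ := h'
  have hf : f = Tt a b c + X ^ 4 * r := by rw [← hr]; ring
  have hg : g = Tt a' b' c' + X ^ 4 * s := by rw [← hs]; ring
  refine ⟨r * Tt a' b' c' + s * Tt a b c + X ^ 4 * r * s + (C c * C a' + C b * C b' + C a * C c') +
    (C c * C b' + C b * C c') * X + C c * C c' * X ^ 2, ?_⟩
  rw [hf, hg]
  unfold Tt
  simp only [C_add, C_mul]
  ring

theorem cg_one : Cg 1 0 0 0 := by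
  refine ⟨0, ?_⟩
  unfold Tt
  simp

theorem cg_lin (c : ℚ) : Cg (1 - C c * X) (-c) 0 0 := by
  refine ⟨0, ?_⟩
  unfold Tt
  rw [C_neg, C_0]
  ring

theorem cg_cub (c : ℚ) : Cg (1 + C c * X ^ 3) 0 0 c := by
  refine ⟨0, ?_⟩
  unfold Tt
  rw [C_0]
  ring

theorem cg_pow1 (c : ℚ) (n : ℕ) : Cg ((1 - C c * X) ^ n) (-(n * c)) (n * (n - 1) / 2 * c ^ 2)
    (-(n * (n - 1) * (n - 2) / 6 * c ^ 3)) := by
  induction n with
  | zero => simpa using cg_one
  | succ n ih =>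
    have h := ih.mul (cg_lin c)
    rw [← pow_succ] at h
    convert h using 1
    · push_cast; ring
    · push_cast; ring
    · push_cast; ring

theorem cg_pow3 (c : ℚ) (n : ℕ) : Cg ((1 + C c * X ^ 3) ^ n) 0 0 (n * c) := by
  induction n with
  | zero => simpa using cg_one
  | succ n ih =>
    have h := ih.mul (cg_cub c)
    rw [← pow_succ] at h
    convert h using 1
    · push_cast; ring
    · push_cast; ring
    · push_cast; ring

theorem cg_exists {f : ℚ[X]} (h : f.coeff 0 = 1) : Cg f (f.coeff 1) (f.coeff 2) (f.coeff 3) := by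
  unfold Cg
  rw [Polynomial.X_pow_dvd_iff]
  intro d hd
  unfold Tt
  interval_cases d <;> simp [coeff_X, coeff_one, coeff_X_pow, h]

theorem cg_unique {f : ℚ[X]} {a b c a' b' c' : ℚ} (h : Cg f a b c) (h' : Cg f a' b' c') :
    a = a' ∧ b = b' ∧ c = c' := by
  have h1 : (X : ℚ[X]) ^ 4 ∣ Tt a b c - Tt a' b' c' := by
    have := dvd_sub h' h
    have e : f - Tt a' b' c' - (f - Tt a b c) = Tt a b c - Tt a' b' c' := by ring
    rwa [e] at this
  rw [Polynomial.X_pow_dvd_iff] at h1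
  have k1 := h1 1 (by norm_num)
  have k2 := h1 2 (by norm_num)
  have k3 := h1 3 (by norm_num)
  unfold Tt at k1 k2 k3
  simp [coeff_X, coeff_one, coeff_X_pow] at k1 k2 k3
  exact ⟨by linarith, by linarith, by linarith⟩

/-- the third coefficient -/
noncomputable def Fq (m t : ℚ) : ℚ :=
  -(m * (m - 1) * (m - 2) / 6) - m * (m - 1) * t - 2 * m * t * (t - 1) -
    4 * t * (t - 1) * (t - 2) / 3 + 2 * t * (m * (m - 1) / 2 - t) + m * t * (2 * t - 1) +
    t * (2 * t - 1) * (2 * t - 2) / 3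

/-- the coefficients in terms of the counts -/
theorem coeffs {P : ℚ[X]} (hP : P.coeff 0 = 1) {m t h k : ℕ}
    (hd : (X : ℚ[X]) ^ 4 ∣ P * (1 - X) ^ (2 * t) -
      (1 - X) ^ m * (1 - C 2 * X) ^ t * (1 + X ^ 3) ^ h * (1 - C 2 * X ^ 3) ^ k) :
    P.coeff 1 = -(m : ℚ) ∧ P.coeff 2 = (m : ℚ) * (m - 1) / 2 - t ∧
      P.coeff 3 = Fq m t + h - 2 * k := by
  have e1 : (1 - X : ℚ[X]) = 1 - C 1 * X := by rw [C_1, one_mul]
  have e3 : (1 + X ^ 3 : ℚ[X]) = 1 + C 1 * X ^ 3 := by rw [C_1, one_mul]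
  have e4 : (1 - C 2 * X ^ 3 : ℚ[X]) = 1 + C (-2) * X ^ 3 := by rw [C_neg]; ring
  rw [e1, e3, e4] at hd
  have hL := (cg_exists hP).mul (cg_pow1 1 (2 * t))
  have hR := (((cg_pow1 1 m).mul (cg_pow1 2 t)).mul (cg_pow3 1 h)).mul (cg_pow3 (-2) k)
  have hR2 := dvd_add hd hR
  rw [sub_add_sub_cancel] at hR2
  obtain ⟨k1, k2, k3⟩ := cg_unique hL hR2
  have hp1 : P.coeff 1 = -(m : ℚ) := by
    push_cast at k1
    linarith
  rw [hp1] at k2 k3
  have hp2 : P.coeff 2 = (m : ℚ) * (m - 1) / 2 - t := by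
    push_cast at k2
    linarith
  rw [hp2] at k3
  refine ⟨hp1, hp2, ?_⟩
  unfold Fq
  push_cast at k3
  linarith

/-- colourings of the whole graph -/
theorem cntOn_univ {V : Type} [Fintype V] (G : SimpleGraph V) (q : ℕ) :
    cntOn G Finset.univ q = cnt G q := by
  unfold cntOn
  rw [Finset.coe_univ]
  exact cnt_iso (SimpleGraph.induceUnivIso G) q

/-- **CMPQ** -/
theorem cmpq (hPOL : S_POL) (hHQ : S_HQ) : S_CMPQ := by
  classical
  intro V W _ _ G H hcard hcnt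
  obtain ⟨w, Z, hZ⟩ := hPOL V G
  obtain ⟨w', Z', hZ'⟩ := hPOL W H
  have hP : Z Finset.univ = Z' Finset.univ := by
    apply poly_ext_inv
    intro q hq
    have h1 := hZ.hcnt Finset.univ q hq
    have h2 := hZ'.hcnt Finset.univ q hq
    rw [cntOn_univ, Finset.card_univ] at h1 h2
    rw [hcnt q, h2, hcard] at h1
    have hq0 : (q : ℚ) ≠ 0 := by
      have : (0 : ℚ) < q := by exact_mod_cast hq
      exact this.ne'
    exact (mul_left_cancel₀ (pow_ne_zero _ hq0) h1).symm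
  have h0 : (Z Finset.univ).coeff 0 = 1 := coeff_zero_Z hZ _
  obtain ⟨a1, a2, a3⟩ := coeffs h0 (hHQ V G w Z hZ)
  have h3 := hHQ W H w' Z' hZ'
  rw [← hP] at h3
  obtain ⟨b1, b2, b3⟩ := coeffs h0 h3
  have hm : cl G Finset.univ 2 = cl H Finset.univ 2 := by
    have : (cl G Finset.univ 2 : ℚ) = cl H Finset.univ 2 := by linarith
    exact_mod_cast this
  rw [hm] at a2 a3
  have ht : cl G Finset.univ 3 = cl H Finset.univ 3 := by
    have : (cl G Finset.univ 3 : ℚ) = cl H Finset.univ 3 := by linarith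
    exact_mod_cast this
  rw [ht] at a3
  refine ⟨hm, ht, ?_⟩
  have h4 : (holes G 4 : ℚ) + 2 * cl H Finset.univ 4 = holes H 4 + 2 * cl G Finset.univ 4 := by
    linarith
  exact_mod_cast h4

end Pool.Agent.P8H62.RC
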