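import Pool.Agent.P8H79.RC.Stm3
import Pool.Agent.P8H59.RC.Hx

/-!
# Project RC, part HQ: the expansion modulo `X ^ 4` for all graphs
-/

set_option autoImplicit false
set_option linter.all false

namespace Pool.Agent.P8H62.RC

open Finset Polynomial
open Pool.Agent.P8H79.RC Pool.Agent.P8H59.RC
open Pool.Agent.H255R3.STC (IsChordal cycle_adj)

/-- the graph with only the edges inside `T` -/
def res {V : Type} (G : SimpleGraph V) (T : Finset V) : SimpleGraph V where
  Adj a b := G.Adj a b ∧ a ∈ T ∧ b ∈ T
  symm := ⟨fun a b h => ⟨h.1.symm, h.2.2, h.2.1⟩⟩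
  loopless := ⟨fun a h => G.loopless.irrefl a h.1⟩

theorem res_induce {V : Type} (G : SimpleGraph V) {T U : Finset V} (h : U ⊆ T) :
    (res G T).induce (U : Set V) = G.induce (U : Set V) := by
  ext a b
  simp only [SimpleGraph.comap_adj, Function.Embedding.subtype_apply, res]
  constructor
  · exact fun h => h.1
  · exact fun h' => ⟨h', h (by exact_mod_cast a.2), h (by exact_mod_cast b.2)⟩

theorem res_clique {V : Type} (G : SimpleGraph V) {T U : Finset V} (h : U ⊆ T) :
    (res G T).IsClique (U : Set V) ↔ G.IsClique (U : Set V) := by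
  constructor
  · intro h1 a ha b hb hab
    exact (h1 ha hb hab).1
  · intro h1 a ha b hb hab
    exact ⟨h1 ha hb hab, h (by exact_mod_cast ha), h (by exact_mod_cast hb)⟩

theorem res_free {V : Type} [DecidableEq V] (G : SimpleGraph V) {T : Finset V} (h : T.card ≤ 4)
    (h4 : ¬ (T.card = 4 ∧ G.IsClique (T : Set V))) : (res G T).CliqueFree 4 := by
  intro S hS
  have hST : S ⊆ T := by
    intro a ha
    have h1 : 1 < S.card := by rw [hS.card_eq]; norm_num
    obtain ⟨b, hb, hab⟩ := Finset.exists_mem_ne h1 a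
    exact (hS.isClique (by exact_mod_cast ha) (by exact_mod_cast hb) (Ne.symm hab)).2.1
  have h2 : S = T := Finset.eq_of_subset_of_card_le hST (by rw [hS.card_eq]; exact h)
  subst h2
  exact h4 ⟨hS.card_eq, (res_clique G (Finset.Subset.refl _)).1 hS.isClique⟩

theorem Z_eq {V : Type} [Fintype V] [DecidableEq V] {G H : SimpleGraph V} {w w' : Finset V → ℚ}
    {Z Z' : Finset V → Polynomial ℚ} (hZ : ZFam G w Z) (hZ' : ZFam H w' Z') (T : Finset V)
    (h : ∀ q, 1 ≤ q → cntOn G T q = cntOn H T q) : Z T = Z' T := by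
  apply poly_ext_inv
  intro q hq
  have h1 := hZ.hcnt T q hq
  have h2 := hZ'.hcnt T q hq
  have hq0 : (q : ℚ) ≠ 0 := by
    have : (0 : ℚ) < q := by exact_mod_cast hq
    exact this.ne'
  rw [h q hq, h2] at h1
  exact (mul_left_cancel₀ (pow_ne_zero _ hq0) h1).symm

theorem ite_eq' {M : Type} {P Q : Prop} {i1 : Decidable P} {i2 : Decidable Q} (h : P ↔ Q)
    (a b : M) : @ite M P i1 a b = @ite M Q i2 a b := by
  by_cases hP : P
  · rw [if_pos hP, if_pos (h.1 hP)]
  · rw [if_neg hP, if_neg (fun hQ => hP (h.2 hQ))]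

theorem lam_res {V : Type} (G : SimpleGraph V) {T U : Finset V} (h : U ⊆ T) :
    lam (res G T) 4 U = lam G 4 U := by
  unfold lam
  congr 1
  · congr 1
    · exact ite_eq' (and_congr_right fun _ => res_clique G h) _ _
    · exact ite_eq' (and_congr_right fun _ => res_clique G h) _ _
  · exact ite_eq' (by rw [res_induce G h]) _ _

open Classical in
/-- the factor of a `K_4` -/
noncomputable def kf {V : Type} (G : SimpleGraph V) (W : Finset V) : AA 4 :=
  if W.card = 4 ∧ G.IsClique (W : Set V) then rho 4 (1 - C 2 * X ^ 3) else 1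

theorem prod_kf {V : Type} (G : SimpleGraph V) (T : Finset V) :
    ∏ W ∈ T.powerset, kf G W = rho 4 (1 - C 2 * X ^ 3) ^ (cl G T 4) := by
  unfold kf
  rw [cl_eq]
  exact key_aux (i1 := _) (i2 := _) _ _ _ _

/-- the numbers of cliques in a clique -/
theorem cl_clique {V : Type} (G : SimpleGraph V) {T : Finset V} (h : G.IsClique (T : Set V)) (k : ℕ) :
    cl G T k = T.card.choose k := by
  classical
  rw [cl_eq, Finset.filter_true_of_mem, Finset.card_powersetCard]
  intro S hS
  rw [Finset.mem_powersetCard] at hS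
  exact h.subset (by exact_mod_cast hS.1)

theorem hh_clique {V : Type} (G : SimpleGraph V) {T : Finset V} (h : G.IsClique (T : Set V)) :
    hh G 4 T = 0 := by
  classical
  unfold hh
  rw [Finset.card_eq_zero, Finset.filter_eq_empty_iff]
  intro W hW hne
  rw [Finset.mem_powersetCard] at hW
  obtain ⟨e⟩ := hne
  have h0 : ¬ (SimpleGraph.cycleGraph 4).Adj (0 : Fin 4) 2 := by
    rw [cycle_adj (k := 2)]
    decide
  apply h0
  rw [← e.map_rel_iff']
  change (G.induce (W : Set V)).Adj (e 0) (e 2)
  rw [SimpleGraph.comap_adj]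
  refine h ?_ ?_ ?_
  · exact hW.1 (by exact_mod_cast (e 0).2)
  · exact hW.1 (by exact_mod_cast (e 2).2)
  · intro h1
    have h2 : e 0 = e 2 := Subtype.ext h1
    have h3 := e.injective h2
    exact absurd h3 (by decide)

/-- the chromatic polynomial of `K_4` -/
theorem Z_clique {V : Type} [Fintype V] [DecidableEq V] {G : SimpleGraph V} {w : Finset V → ℚ}
    {Z : Finset V → Polynomial ℚ} (hZ : ZFam G w Z) {T : Finset V} (hT : T.card = 4)
    (h : G.IsClique (T : Set V)) :
    Z T = (1 - X) * (1 - C 2 * X) * (1 - C 3 * X) := by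
  apply poly_ext_inv
  intro q hq
  have hq0 : (q : ℚ) ≠ 0 := by
    have : (0 : ℚ) < q := by exact_mod_cast hq
    exact this.ne'
  have h1 := hZ.hcnt T q hq
  have h2 : cntOn G T q = q.descFactorial 4 := by
    unfold cntOn
    have e : (G.induce (T : Set V)).Coloring (Fin q) ≃ (T ↪ Fin q) :=
      { toFun := fun c => ⟨fun t => c ⟨t.1, by exact_mod_cast t.2⟩, fun s t hst => by
          by_contra hne
          have hne' : (s : V) ≠ (t : V) := fun h => hne (Subtype.ext h)
          have hadj : G.Adj (s : V) (t : V) := h (by exact_mod_cast s.2) (by exact_mod_cast t.2) hne'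
          exact c.valid (v := ⟨s.1, by exact_mod_cast s.2⟩) (w := ⟨t.1, by exact_mod_cast t.2⟩)
            hadj hst⟩
        invFun := fun f => SimpleGraph.Coloring.mk (fun t => f ⟨t.1, by exact_mod_cast t.2⟩)
          (by
            intro a b hab h3
            have h4 := f.injective h3
            have h5 : a = b := Subtype.ext (congrArg (fun t : T => (t : V)) h4)
            exact hab.ne h5)
        left_inv := fun c => by ext; rfl
        right_inv := fun f => by ext; rfl }
    rw [Nat.card_congr e, Nat.card_eq_fintype_card, Fintype.card_embedding_eq, Fintype.card_fin,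
      Fintype.card_coe, hT]
  rw [h2, hT] at h1
  have h3 : ((q.descFactorial 4 : ℕ) : ℚ) = (q : ℚ) * (q - 1) * (q - 2) * (q - 3) := by
    rcases Nat.lt_or_ge q 4 with h4 | h4
    · interval_cases q <;> norm_num [Nat.descFactorial]
    · have h5 : q.descFactorial 4 = (q - 3) * ((q - 2) * ((q - 1) * q)) := by
        simp [Nat.descFactorial]
      rw [h5]
      push_cast [Nat.cast_sub (by omega : 3 ≤ q), Nat.cast_sub (by omega : 2 ≤ q),
        Nat.cast_sub (by omega : 1 ≤ q)]
      ring
  rw [h3] at h1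
  have h6 : (q : ℚ) ^ 4 ≠ 0 := pow_ne_zero _ hq0
  apply mul_left_cancel₀ h6
  rw [← h1]
  simp only [eval_mul, eval_sub, eval_one, eval_X, eval_C]
  field_simp

theorem expand4 {V : Type} [Fintype V] [DecidableEq V] (hKB : S_KB) (hPOL : S_POL) (hCHO : S_CHO)
    (hCYC : S_CYC) (G : SimpleGraph V) (w : Finset V → ℚ) (Z : Finset V → Polynomial ℚ)
    (hZ : ZFam G w Z) (T : Finset V) :
    rho 4 (Z T) = ∏ W ∈ T.powerset, (lam G 4 W * kf G W) := by
  classical
  have hzu : ∀ U, IsUnit (rho 4 (Z U)) :=
    fun U => rho_unit 4 (by rw [coeff_zero_Z hZ]; exact one_ne_zero)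
  induction T using Finset.strongInduction with
  | H T ih =>
    rcases Nat.lt_or_ge 4 T.card with hTl | hTl
    · have hkb := hKB V w (fun U => (Z U : PowerSeries ℚ)) (by
          show ((Z ∅ : ℚ[X]) : PowerSeries ℚ) = 1
          rw [hZ.one]; simp) hZ.w1 (by
          intro T v hv
          show ((Z T : ℚ[X]) : PowerSeries ℚ) = _
          rw [hZ.hrec T v hv, ← Polynomial.coeToPowerSeries.ringHom_apply, map_sum]
          refine Finset.sum_congr rfl fun U _ => ?_
          rw [map_mul, map_mul, map_pow]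
          simp only [Polynomial.coeToPowerSeries.ringHom_apply, Polynomial.coe_C,
            Polynomial.coe_X]) T
      have h0 : pi 4 ((∏ U ∈ T.powerset.filter (fun U => Even (T.card - U.card)),
          (Z U : PowerSeries ℚ)) - ∏ U ∈ T.powerset.filter (fun U => ¬ Even (T.card - U.card)),
          (Z U : PowerSeries ℚ)) = 0 := by
        rw [pi_eq_zero]
        exact (pow_dvd_pow _ (by omega)).trans hkb
      rw [map_sub, sub_eq_zero, map_prod, map_prod] at h0
      have h0' : ∏ U ∈ T.powerset.filter (fun U => Even (T.card - U.card)), rho 4 (Z U) =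
          ∏ U ∈ T.powerset.filter (fun U => ¬ Even (T.card - U.card)), rho 4 (Z U) := h0
      have hTmem : T ∈ T.powerset.filter (fun U => Even (T.card - U.card)) := by
        rw [Finset.mem_filter, Finset.mem_powerset]
        exact ⟨Finset.Subset.refl T, by simp⟩
      have hm := mob T (fun W => lam G 4 W * kf G W)
      have hlamT : lam G 4 T * kf G T = 1 := by
        unfold lam kf
        rw [if_neg (by rintro ⟨h, _⟩; omega), if_neg (by rintro ⟨h, _⟩; omega),
          if_neg (by rintro ⟨h, _⟩; omega), if_neg (by rintro ⟨h, _⟩; omega)]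
        ring
      rw [hlamT, mul_one, ← Finset.mul_prod_erase _ _ hTmem] at hm
      rw [← Finset.mul_prod_erase _ _ hTmem] at h0'
      have e1 : ∏ U ∈ (T.powerset.filter (fun U => Even (T.card - U.card))).erase T,
          rho 4 (Z U) = ∏ U ∈ (T.powerset.filter (fun U => Even (T.card - U.card))).erase T,
          ∏ W ∈ U.powerset, (lam G 4 W * kf G W) := by
        refine Finset.prod_congr rfl fun U hU => ih U ?_
        rw [Finset.mem_erase, Finset.mem_filter, Finset.mem_powerset] at hU
        exact Finset.ssubset_iff_subset_ne.mpr ⟨hU.2.1, hU.1⟩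
      have e2 : ∏ U ∈ T.powerset.filter (fun U => ¬ Even (T.card - U.card)), rho 4 (Z U) =
          ∏ U ∈ T.powerset.filter (fun U => ¬ Even (T.card - U.card)),
            ∏ W ∈ U.powerset, (lam G 4 W * kf G W) := by
        refine Finset.prod_congr rfl fun U hU => ih U ?_
        rw [Finset.mem_filter, Finset.mem_powerset] at hU
        refine Finset.ssubset_iff_subset_ne.mpr ⟨hU.1, ?_⟩
        rintro rfl
        exact hU.2 (by simp)
      have hunit : IsUnit (∏ U ∈ (T.powerset.filter (fun U => Even (T.card - U.card))).erase T,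
          rho 4 (Z U)) := by
        refine Finset.prod_induction _ IsUnit (fun a b => IsUnit.mul) isUnit_one ?_
        intro U _
        exact hzu U
      rw [e2, ← hm, ← e1] at h0'
      exact hunit.mul_right_cancel h0'
    · by_cases h4 : T.card = 4 ∧ G.IsClique (T : Set V)
      · obtain ⟨hT, hc⟩ := h4
        rw [Finset.prod_mul_distrib, prod_lam, prod_kf, cl_clique G hc, cl_clique G hc,
          cl_clique G hc, hh_clique G hc, hT, Z_clique hZ hT hc]
        have c2 : Nat.choose 4 2 = 6 := rfl
        have c3 : Nat.choose 4 3 = 4 := rfl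
        have c4 : Nat.choose 4 4 = 1 := rfl
        rw [c2, c3, c4, pow_zero, mul_one, pow_one]
        have hy := yy_mul 4
        have key : rho 4 ((1 - X) * (1 - C 2 * X) * (1 - C 3 * X) * (1 - X) ^ 2) =
            rho 4 ((1 - C 2 * X) ^ 4 * (1 - C 2 * X ^ 3)) := by
          rw [← sub_eq_zero, ← map_sub, rho_eq_zero]
          refine ⟨(1 - 2 * X) * (-9 + 24 * X - 16 * X ^ 2), ?_⟩
          have e2 : (C 2 : ℚ[X]) = 2 := rfl
          have e3 : (C 3 : ℚ[X]) = 3 := rfl
          rw [e2, e3]
          ring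
        have key2 : rho 4 ((1 - X) * (1 - C 2 * X) * (1 - C 3 * X)) * rho 4 (1 - X) ^ 2 =
            rho 4 (1 - C 2 * X) ^ 4 * rho 4 (1 - C 2 * X ^ 3) := by
          rw [← map_pow, ← map_mul, key, map_mul, map_pow]
        generalize rho 4 ((1 - X) * (1 - C 2 * X) * (1 - C 3 * X)) = u at key2 ⊢
        generalize rho 4 (1 - X) = a at key2 hy ⊢
        generalize rho 4 (1 - C 2 * X) = b at key2 ⊢
        generalize rho 4 (1 - C 2 * X ^ 3) = c at key2 ⊢
        generalize yy 4 = y at hy ⊢
        have h5 : a ^ 6 * y ^ 6 = 1 := by rw [← mul_pow, hy, one_pow]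
        have h6 : a ^ 2 * y ^ 2 = 1 := by rw [← mul_pow, hy, one_pow]
        calc u = u * (a ^ 2 * y ^ 2) := by rw [h6, mul_one]
          _ = (u * a ^ 2) * y ^ 2 := by ring
          _ = (b ^ 4 * c) * y ^ 2 := by rw [key2]
          _ = (b ^ 4 * c) * y ^ 2 * (a ^ 6 * y ^ 6) := by rw [h5, mul_one]
          _ = _ := by ring
      · obtain ⟨w', Z', hZ'⟩ := hPOL V (res G T)
        have h1 := expand hKB hCHO hCYC (res G T) w' Z' hZ' (res_free G hTl h4) 4 le_rfl
          (fun j h5 h6 => absurd h6 (by omega)) T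
        have h2 : Z T = Z' T := by
          refine Z_eq hZ hZ' T fun q _ => ?_
          unfold cntOn
          rw [res_induce G (Finset.Subset.refl T)]
        rw [h2, h1]
        refine Finset.prod_congr rfl fun W hW => ?_
        rw [Finset.mem_powerset] at hW
        have h7 : kf G W = 1 := by
          unfold kf
          rw [if_neg]
          rintro ⟨h8, h9⟩
          have h10 : W = T := Finset.eq_of_subset_of_card_le hW (by omega)
          subst h10
          exact h4 ⟨h8, h9⟩
        rw [h7, mul_one, lam_res G hW]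

/-- **HQ** -/
theorem hq (hKB : S_KB) (hPOL : S_POL) (hCHO : S_CHO) (hCYC : S_CYC) : S_HQ := by
  intro V _ _ G w Z hZ
  have h1 := expand4 hKB hPOL hCHO hCYC G w Z hZ Finset.univ
  rw [Finset.prod_mul_distrib, prod_lam, prod_kf, ← holes_eq] at h1
  rw [← rho_eq_zero, map_sub, sub_eq_zero]
  have e0 : (1 + (-1) ^ 4 * X ^ (4 - 1) : ℚ[X]) = 1 + X ^ 3 := by norm_num
  rw [e0] at h1
  simp only [map_mul, map_pow] at h1 ⊢
  rw [h1]
  have e1 : yy 4 ^ (2 * cl G Finset.univ 3) * rho 4 (1 - X) ^ (2 * cl G Finset.univ 3) = 1 := by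
    rw [← mul_pow, mul_comm, yy_mul, one_pow]
  rw [mul_pow, ← pow_mul]
  linear_combination (rho 4 (1 - X) ^ cl G Finset.univ 2 *
    rho 4 (1 - C 2 * X) ^ cl G Finset.univ 3 * rho 4 (1 + X ^ 3) ^ holes G 4 *
    rho 4 (1 - C 2 * X ^ 3) ^ cl G Finset.univ 4) * e1

end Pool.Agent.P8H62.RC
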